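import Pool.Agent.R212.Par13

open MeasureTheory
open scoped ENNReal

open Pool.Agent.R212 Pool.Agent.R212.AdvDiff

/-- On `T³` there are a divergence-free `b ∈ L¹([0,T]; L^∞)` and a distributional solution
`u ∈ L^∞([0,T]; L²)` of `∂_t u + b · ∇ u = Δ u` with datum `0` which is not parabolic
(`r = 1`, `p = ∞`, `q = 2`, so that `1/p + 1/q = 1/2`). -/
theorem Pool.Agent.Results.MP_051498_an.NotParabolic.result :
    ∃ (T : ℝ) (b : ℝ → (Fin 3 → ℝ) → (Fin 3 → ℝ)) (u : ℝ → (Fin 3 → ℝ) → ℝ), 0 < T ∧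
      MemLrLp T 1 ⊤ b ∧ DivergenceFree T b ∧ IsDistributionalSolution T 2 b (fun _ => 0) u ∧
      ¬ IsParabolic T u :=
  Pool.Agent.R212.main
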